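import Pool.Agent.MP_38bec9_co.Main

set_option autoImplicit false

namespace Pool.Agent.Results.MP_38bec9_co.NoBound

open Pool.Agent.MP_38bec9_co

/-- There is no function `f : ℕ → ℕ` with `π₃(G) ≤ f (π(G))` for every finite simple graph `G`. -/
theorem result : ¬ ∃ f : ℕ → ℕ, ∀ (V : Type) [Finite V] (G : SimpleGraph V),
    pi3 G ≤ f (sepDim G) := by
  rintro ⟨f, hf⟩
  obtain ⟨V, hV, G, h1, h2⟩ := large ((Finset.range 421).sup f)
  have h3 := hf V G
  have h4 : f (sepDim G) ≤ (Finset.range 421).sup f :=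
    Finset.le_sup (Finset.mem_range.2 (by omega))
  omega

end Pool.Agent.Results.MP_38bec9_co.NoBound
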